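import Pool.Agent.Q57.FG.LatA

/-!
The finite generation of the multigraded adjoint rings, for covers of the projective space.
-/

set_option autoImplicit false
set_option linter.overlappingInstances false
set_option linter.unusedSectionVars false
set_option maxHeartbeats 1000000

open FF MvPolynomial Pool.Agent.W603.LV Pool.Agent.W619.PQ
open Pool.Agent.W619.TW Pool.Agent.W602.GT Pool.Agent.TH122.AB Pool.Agent.TH756.PN
open Pool.Agent.Y169.CH Pool.Agent.W602.Cov Pool.Agent.W602.Cov.G Pool.Agent.Y169.TH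
open Pool.Agent.Q57.TP Pool.Agent.TH152.AC Pool.Agent.Q57.GM

namespace Pool.Agent.Q57.FG

/-- the exponents as natural numbers -/
noncomputable def toN {p : ℕ} (γ : Fin p → ℤ) : Fin p →₀ ℕ :=
  Finsupp.equivFunOnFinite.symm fun i => (γ i).toNat

theorem toN_apply {p : ℕ} (γ : Fin p → ℤ) (i : Fin p) : toN γ i = (γ i).toNat := rfl

theorem toN_coe {p : ℕ} {γ : Fin p → ℤ} (h : ∀ i, 0 ≤ γ i) (i : Fin p) :
    ((toN γ i : ℕ) : ℤ) = γ i := by
  rw [toN_apply, Int.toNat_of_nonneg (h i)]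

theorem toN_add {p : ℕ} {γ γ' : Fin p → ℤ} (h : ∀ i, 0 ≤ γ i) (h' : ∀ i, 0 ≤ γ' i) :
    toN (γ + γ') = toN γ + toN γ' := by
  ext i
  rw [Finsupp.add_apply, toN_apply, toN_apply, toN_apply, Pi.add_apply,
    Int.toNat_add (h i) (h' i)]

theorem toN_cast {p : ℕ} (μ : Fin p →₀ ℕ) : toN (fun i => ((μ i : ℕ) : ℤ)) = μ := by
  ext i
  rw [toN_apply, Int.toNat_natCast]

theorem toN_zero {p : ℕ} : toN (0 : Fin p → ℤ) = 0 := by
  ext i
  rw [toN_apply]
  simp

variable {d p : ℕ} {Φ : Arr (d + 1)} {K : Type} [Field K] [Algebra ℂ K] {R : ℕ} (C : Cv Φ K R)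
  {c : Fin p → (Fin (d + 2) → ℕ) → ℚ} {δ : Fin p → Place ℂ K → ℚ}

/-- the element of a lattice point -/
noncomputable def gm (z : K) (γ : (Fin p → ℤ) × (Fin (d + 2) → ℤ)) :
    (Fin (d + 1) → Derivation ℂ K K) → MvPolynomial (Fin p) K :=
  hom (toN γ.1) fun D => sG C (∑ i, toN γ.1 i) γ.2 D * z

theorem gm_mul {γ γ' : (Fin p → ℤ) × (Fin (d + 2) → ℤ)} (h : ∀ i, 0 ≤ γ.1 i)
    (h' : ∀ i, 0 ≤ γ'.1 i) (z z' : K) : gm C (z * z') (γ + γ') = gm C z γ * gm C z' γ' := by
  funext D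
  unfold gm hom
  rw [Pi.mul_apply, monomial_mul, Prod.fst_add, toN_add h h', Prod.snd_add]
  congr 1
  have h1 : ∑ i, (toN γ.1 + toN γ'.1) i = ∑ i, toN γ.1 i + ∑ i, toN γ'.1 i := by
    rw [← Finset.sum_add_distrib]
    rfl
  rw [h1]
  have h2 := sG_mul C (∑ i, toN γ.1 i) (∑ i, toN γ'.1 i) γ.2 γ'.2 D
  have h3 : (fun k => γ.2 k + γ'.2 k) = γ.2 + γ'.2 := rfl
  rw [h3] at h2
  dsimp only
  rw [h2]
  ring

theorem gm_zero : gm (p := p) C 1 0 = 1 := by
  funext D
  unfold gm hom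
  rw [Prod.fst_zero, toN_zero, Prod.snd_zero]
  have h1 : sG C (∑ i : Fin p, (0 : Fin p →₀ ℕ) i) 0 D = 1 := by
    unfold sG
    simp
  dsimp only
  rw [h1, mul_one]
  rfl

/-- the degree -/
theorem exists_deg {E : ℕ} (hE : 0 < E) {B : ℤ} (hB : 0 ≤ B) :
    ∃ t : ℕ, B ≤ E * t ∧ (E : ℤ) * t ≤ B + E := by
  obtain ⟨b, rfl⟩ := Int.eq_ofNat_of_zero_le hB
  refine ⟨b / E + 1, ?_, ?_⟩
  · have h2 := Nat.lt_mul_div_succ b hE
    exact_mod_cast h2.le
  · have h2 := Nat.mul_div_le b E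
    have h4 : ((E * (b / E) : ℕ) : ℤ) ≤ b := by exact_mod_cast h2
    push_cast at h4 ⊢
    rw [mul_add, mul_one]
    linarith

/-- **Finite generation.** -/
theorem fgA (hcf : ∀ i, Coef C (c i) (δ i))
    (hmul : ∀ i v (r : ℕ), 1 ≤ r → Pool.Agent.Y169.TH.Adm C.M C.a v →
      1 - c i (r • v) ≤ r * (1 - c i v))
    {T : Finset (Fin (d + 2) → ℕ)} (hT : BigM C.M C.a c T)
    (hκ : ∀ (μ : Fin p →₀ ℕ) (ω : (Fin (d + 1) → Derivation ℂ K K) → K), MSec (d + 1) δ μ ω →
      ω ≠ 0 → 0 ≤ (∑ k, (Φ.dF k : ℤ) - (d + 2)) * ((∑ i, μ i : ℕ) : ℤ)) :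
    (secRing (d + 1) δ).FG := by
  classical
  obtain ⟨L, hL, hden⟩ := exists_den fun s : Fin p × T => 1 - c s.1 s.2.1
  choose q' hq' using hden
  obtain ⟨q, hq⟩ : ∃ q : Fin p → T → ℤ, q = fun i s => q' (i, s) := ⟨_, rfl⟩
  have hqs : ∀ i (s : T), (L : ℚ) * (1 - c i s.1) = q i s := fun i s => by
    rw [hq]
    exact hq' (i, s)
  obtain ⟨κ, hκd⟩ : ∃ κ : ℤ, κ = ∑ k, (Φ.dF k : ℤ) - (d + 2) := ⟨_, rfl⟩
  rw [← hκd] at hκ
  have hEpos : (0 : ℤ) < Φ.E := by exact_mod_cast Φ.E_pos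
  obtain ⟨G, hG1, hG2⟩ := gordan (consM T Φ.ee Φ.E L κ q) consM_inj
  -- the vector fields
  obtain ⟨D0, hD0'⟩ := exists_dual C.u_bas
  have hD0 : ∀ i j, D0 i (C.u j) = if i = j then 1 else 0 := by
    intro i j
    have h1 := congrFun (congrFun hD0' i) j
    rw [Matrix.of_apply, Matrix.one_apply] at h1
    exact h1
  -- the structure
  choose X hX using fun s : T => C.exists_dir (hT.adm s.1 s.2)
  obtain ⟨N0, β, Q, c1, hQ, hstr⟩ := sec_str_u C X hD0 {1}
  obtain ⟨cs, hcs⟩ : ∃ cs : T ⊕ (Fin (d + 2) ⊕ (Fin p ⊕ Fin 2)) → ℤ,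
    cs = Sum.elim (fun _ => (L : ℤ) * c1) (Sum.elim (fun _ => (c1 : ℤ)) (Sum.elim (fun _ => 0)
      fun _ => (c1 : ℤ) + Φ.E)) := ⟨_, rfl⟩
  obtain ⟨F0, hF1, hF2⟩ := dickson (consM T Φ.ee Φ.E L κ q) cs
    {γ | ∀ s, - cs s ≤ consM T Φ.ee Φ.E L κ q γ s} fun γ hγ => hγ
  have hFnn : ∀ f ∈ F0, ∀ i, 0 ≤ f.1 i := by
    intro f hf i
    have h1 := hF1 f hf (Sum.inr (Sum.inr (Sum.inl i)))
    rw [consM_m, hcs] at h1
    simpa using h1
  -- the generators
  obtain ⟨GG, hGG⟩ : ∃ GG : Finset ((Fin (d + 1) → Derivation ℂ K K) → MvPolynomial (Fin p) K),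
    GG = G.image (gm C 1) := ⟨_, rfl⟩
  obtain ⟨FF', hFF⟩ : ∃ FF' : Finset ((Fin (d + 1) → Derivation ℂ K K) → MvPolynomial (Fin p) K),
    FF' = (F0 ×ˢ (Finset.univ : Finset (Fin N0))).image fun x => gm C (β x.2 / Q) x.1 := ⟨_, rfl⟩
  have hSmem : ∀ γ, ExM T Φ.ee Φ.E L κ q γ → gm C 1 γ ∈ Algebra.adjoin ℂ (GG :
      Set ((Fin (d + 1) → Derivation ℂ K K) → MvPolynomial (Fin p) K)) := by
    have key : ∀ γ ∈ AddSubmonoid.closure (G : Set ((Fin p → ℤ) × (Fin (d + 2) → ℤ))),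
        (∀ i, 0 ≤ γ.1 i) ∧ gm C 1 γ ∈ Algebra.adjoin ℂ (GG :
        Set ((Fin (d + 1) → Derivation ℂ K K) → MvPolynomial (Fin p) K)) := by
      intro γ hγ
      induction hγ using AddSubmonoid.closure_induction with
      | mem g hg =>
        refine ⟨fun i => (hG1 g hg).2 (Sum.inr (Sum.inr (Sum.inl i))),
          Algebra.subset_adjoin ?_⟩
        rw [hGG]
        exact Finset.mem_coe.2 (Finset.mem_image_of_mem _ hg)
      | zero =>
        refine ⟨fun i => le_rfl, ?_⟩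
        rw [gm_zero]
        exact Subalgebra.one_mem _
      | add x y _ _ hx hy =>
        refine ⟨fun i => add_nonneg (hx.1 i) (hy.1 i), ?_⟩
        have h1 := gm_mul C hx.1 hy.1 1 1
        rw [mul_one] at h1
        rw [h1]
        exact Subalgebra.mul_mem _ hx.2 hy.2
    exact fun γ hγ => (key γ (hG2 γ hγ)).2
  have hspan : ∀ γ, (∀ s, - cs s ≤ consM T Φ.ee Φ.E L κ q γ s) → ∀ i, gm C (β i / Q) γ ∈
      Submodule.span (Algebra.adjoin ℂ (GG : Set ((Fin (d + 1) → Derivation ℂ K K) →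
        MvPolynomial (Fin p) K))) (FF' : Set ((Fin (d + 1) → Derivation ℂ K K) →
        MvPolynomial (Fin p) K)) := by
    intro γ hγ i
    obtain ⟨f, hf, hfγ⟩ := hF2 γ hγ
    have h1 := gm_mul C (γ := γ - f) (γ' := f) (fun i => hfγ (Sum.inr (Sum.inr (Sum.inl i))))
      (hFnn f hf) 1 (β i / Q)
    rw [sub_add_cancel, one_mul] at h1
    rw [h1]
    have h2 : gm C (β i / Q) f ∈ Submodule.span (Algebra.adjoin ℂ (GG :
        Set ((Fin (d + 1) → Derivation ℂ K K) → MvPolynomial (Fin p) K)))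
        (FF' : Set ((Fin (d + 1) → Derivation ℂ K K) → MvPolynomial (Fin p) K)) := by
      refine Submodule.subset_span ?_
      rw [hFF]
      exact Finset.mem_coe.2 (Finset.mem_image.2 ⟨(f, i), Finset.mem_product.2
        ⟨hf, Finset.mem_univ i⟩, rfl⟩)
    exact Submodule.smul_mem _ (⟨gm C 1 (γ - f), hSmem _ hfγ⟩ : Algebra.adjoin ℂ (GG :
        Set ((Fin (d + 1) → Derivation ℂ K K) → MvPolynomial (Fin p) K))) h2
  refine secRing_fg (D0 := D0) (fun m ω hω h0 => ?_) GG FF' (fun g hg => ?_) fun μ ω hω => ?_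
  · funext D
    rw [pluri_eq C hD0 hω D, h0, mul_zero]
    rfl
  · -- the generators are sections
    rw [hGG] at hg
    obtain ⟨γ, hγ, rfl⟩ := Finset.mem_image.1 hg
    have hex : ExM T Φ.ee Φ.E L κ q γ := (hG1 γ hγ).2
    refine hom_mem ?_
    refine bsec_msec ?_
    simp only [mul_one]
    refine sG_sec C (av_coef C _ hcf) ?_ fun v hv => ?_
    · rw [hex.eq, hκd]
      push_cast
      congr 1
      exact Finset.sum_congr rfl fun i _ => (toN_coe hex.nn i).symm
    · have h1 := exM_adm hT hL hqs hex hv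
      refine le_trans (le_of_eq ?_) h1
      rw [mul_sub, av_mul]
      push_cast
      rw [mul_one, ← Finset.sum_sub_distrib]
      refine Finset.sum_congr rfl fun i _ => ?_
      have h2 : ((toN γ.1 i : ℕ) : ℚ) = γ.1 i := by exact_mod_cast toN_coe hex.nn i
      rw [h2]
      ring
  · -- the sections are in the module
    by_cases hω0 : ω = 0
    · have h1 : hom μ ω = (0 : (Fin (d + 1) → Derivation ℂ K K) → MvPolynomial (Fin p) K) := by
        funext D
        unfold hom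
        rw [hω0]
        simp
      rw [h1]
      exact Submodule.zero_mem _
    have hκ0 := hκ μ ω hω hω0
    obtain ⟨m, hm⟩ : ∃ m : ℕ, m = ∑ i, μ i := ⟨_, rfl⟩
    rw [← hm] at hκ0
    -- the degree
    obtain ⟨t, hq1, hq2⟩ := exists_deg Φ.E_pos (B := κ * m + c1) (by positivity)
    have hb := msec_bsec hω
    rw [← hm] at hb
    obtain ⟨Rp, hR, hRs⟩ := hstr (av_coef C μ hcf) (fun v r hr hv => av_ray μ hr fun i =>
      hmul i v r hr hv) m 0 t ω (bsec_sec hb)
      (by rw [← hκd]; push_cast; linarith)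
    obtain ⟨a', ha'⟩ : ∃ a' : (Fin (d + 1) →₀ ℕ) → Fin (d + 2) → ℤ,
      a' = fun a => Fin.cases ((t : ℤ) - ∑ b, (a b : ℤ)) fun b => (a b : ℤ) := ⟨_, rfl⟩
    obtain ⟨μ', hμ'⟩ : ∃ μ' : Fin p → ℤ, μ' = fun i => ((μ i : ℕ) : ℤ) := ⟨_, rfl⟩
    have hμN : toN μ' = μ := by
      rw [hμ']
      exact toN_cast μ
    -- the expansion
    have hexp : hom μ ω = ∑ i, ∑ a ∈ (Rp i).support,
        coeff a (Rp i) • gm C (β i / Q) (μ', a' a) := by
      funext D
      simp only [Finset.sum_apply, Pi.smul_apply]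
      unfold gm hom
      simp only [hμN, ← hm]
      have h1 : ∀ (z : K) (r : ℂ), r • (monomial μ z : MvPolynomial (Fin p) K) =
          monomial μ (r • z) := fun z r => by rw [smul_monomial]
      simp only [h1]
      rw [Finset.sum_congr rfl fun i _ => (map_sum (monomial μ) _ _).symm, ← map_sum]
      congr 1
      rw [pluri_eq C hD0 hω.1 D, ← hm]
      have hLam := C.Lam_ne m
      have hG0 := pow_ne_zero t (C.G_ne 0)
      have h2 : ω D0 = (∑ i, aeval C.Y (Rp i) * β i) * aeval C.x (Φ.G 0) ^ t /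
          (C.Lam m * Q) := by
        rw [← hR]
        rw [zero_add, pow_one]
        field_simp
      rw [h2, Finset.sum_mul, Finset.sum_div, Finset.mul_sum]
      refine Finset.sum_congr rfl fun i _ => ?_
      have h3 : aeval C.Y (Rp i) = ∑ a ∈ (Rp i).support, algebraMap ℂ K (coeff a (Rp i)) *
          ∏ b, C.Y b ^ a b := by
        conv_lhs => rw [(Rp i).as_sum, map_sum]
        refine Finset.sum_congr rfl fun a _ => ?_
        rw [aeval_monomial, Finsupp.prod_fintype _ _ fun i => pow_zero _]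
      rw [h3, Finset.sum_mul, Finset.sum_mul, Finset.sum_div, Finset.mul_sum]
      refine Finset.sum_congr rfl fun a _ => ?_
      rw [ha']
      dsimp only
      rw [mono_sG C m t a D, Algebra.smul_def]
      field_simp
    rw [hexp]
    refine Submodule.sum_mem _ fun i _ => Submodule.sum_mem _ fun a ha => ?_
    have hmem := hspan (μ', a' a) ?_ i
    · have h1 : coeff a (Rp i) • gm C (β i / Q) (μ', a' a) =
          (algebraMap ℂ (Algebra.adjoin ℂ (GG : Set ((Fin (d + 1) → Derivation ℂ K K) →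
            MvPolynomial (Fin p) K))) (coeff a (Rp i))) • gm C (β i / Q) (μ', a' a) :=
        (algebraMap_smul _ _ _).symm
      rw [h1]
      exact Submodule.smul_mem _ _ hmem
    -- the constraints
    have ha0 : a' a 0 = (t : ℤ) - ∑ b, (a b : ℤ) := by rw [ha']; rfl
    have has : ∀ b : Fin (d + 1), a' a b.succ = a b := fun b => by rw [ha']; rfl
    have hsuma : ∑ k, a' a k = t := by
      rw [Fin.sum_univ_succ, ha0, Finset.sum_congr rfl fun b _ => has b]
      ring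
    have hsumμ : ∑ i, μ' i = m := by
      rw [hμ', hm]
      push_cast
      rfl
    have hlin : ∀ w : Fin (d + 2) → ℕ, ∑ k, (Φ.ee k : ℤ) * w k * a' a k =
        (Φ.ee 0 * w 0 : ℤ) * (t - ∑ b, (a b : ℤ)) +
          ∑ b, (Φ.ee b.succ * w b.succ : ℤ) * a b := by
      intro w
      rw [Fin.sum_univ_succ, ha0]
      congr 1
      exact Finset.sum_congr rfl fun b _ => by rw [has]
    have hT1 : ∀ s : T, (1 - av μ c s.1) * m - c1 ≤
        ((∑ k, (Φ.ee k : ℤ) * s.1 k * a' a k : ℤ) : ℚ) := by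
      intro s
      have h1 := hRs i a ha s
      rw [hX, ← hlin] at h1
      push_cast at h1 ⊢
      linarith
    have hav : ∀ v, (m : ℚ) * av μ c v = ∑ i, (μ i : ℚ) * c i v := by
      intro v
      rw [hm]
      exact av_mul μ c v
    intro s
    rcases s with s | k | i' | l
    · rw [consM_vec, hcs, Sum.elim_inl]
      have h1 := hT1 s
      have hLq : (0 : ℚ) < L := by exact_mod_cast hL
      have h2 := mul_le_mul_of_nonneg_left h1 hLq.le
      have h4 : ((∑ i, q i s * μ' i : ℤ) : ℚ) = L * ((1 - av μ c s.1) * m) := by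
        push_cast
        have h5 : (L : ℚ) * ((1 - av μ c s.1) * m) = L * (m - m * av μ c s.1) := by ring
        rw [h5, hav, hm, hμ']
        push_cast
        rw [← Finset.sum_sub_distrib, Finset.mul_sum]
        refine Finset.sum_congr rfl fun i _ => ?_
        rw [← hqs i s]
        ring
      have h3 : (((- ((L : ℤ) * c1) : ℤ)) : ℚ) ≤
          ((L * ∑ k, (Φ.ee k : ℤ) * s.1 k * a' a k - ∑ i, q i s * μ' i : ℤ) : ℚ) := by
        rw [Int.cast_sub, h4]
        push_cast at h2 ⊢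
        linarith
      exact_mod_cast h3
    · rw [consM_coord, hcs, Sum.elim_inr, Sum.elim_inl]
      have h1 := hT1 ⟨_, hT.unit k⟩
      have h2 : ∑ l, (Φ.ee l : ℤ) * uv C.M k l * a' a l = Φ.ee k * per C.M * a' a k := by
        rw [Finset.sum_eq_single k]
        · unfold uv
          rw [if_pos rfl]
        · intro l _ hl
          unfold uv
          rw [if_neg hl]
          simp
        · intro h
          exact absurd (Finset.mem_univ _) h
      dsimp only at h1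
      rw [h2] at h1
      have h3 := av_le μ (uv C.M k) fun i => (hcf i).le (uv C.M k)
      have h4 : (0 : ℚ) ≤ (1 - av μ c (uv C.M k)) * m := mul_nonneg (by linarith) (by positivity)
      have h5 : (((- (c1 : ℤ)) : ℤ) : ℚ) ≤
          ((Φ.ee k * per C.M * a' a k : ℤ) : ℚ) := by
        push_cast at h1 ⊢
        linarith
      have h6 : - (c1 : ℤ) ≤ Φ.ee k * per C.M * a' a k := by exact_mod_cast h5
      by_cases h7 : 0 ≤ a' a k
      · have : (0 : ℤ) ≤ (c1 : ℤ) := by positivity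
        dsimp only
        linarith
      · push Not at h7
        have h8 : (1 : ℤ) ≤ Φ.ee k * per C.M := by
          have h9 := Nat.mul_pos (Φ.ee_pos k) (per_pos C.hM)
          exact_mod_cast h9
        dsimp only
        nlinarith
    · rw [consM_m, hcs, Sum.elim_inr, Sum.elim_inr, Sum.elim_inl, neg_zero, hμ']
      positivity
    · rw [hcs]
      fin_cases l
      · change - ((c1 : ℤ) + Φ.E) ≤ Φ.E * ∑ k, a' a k - κ * ∑ i, μ' i
        rw [hsuma, hsumμ]
        have : (0 : ℤ) ≤ (c1 : ℤ) := by positivity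
        linarith
      · change - ((c1 : ℤ) + Φ.E) ≤ κ * ∑ i, μ' i - Φ.E * ∑ k, a' a k
        rw [hsuma, hsumμ]
        linarith

end Pool.Agent.Q57.FG
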