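import Pool.Agent.Q57.FG.Noe
import Pool.Agent.Q57.FG.SecA
import Pool.Agent.Q57.GM.Gmm

/-!
The lattice points for the multigraded ring.
-/

set_option autoImplicit false
set_option linter.overlappingInstances false
set_option linter.unusedSectionVars false
set_option maxHeartbeats 1000000

open FF MvPolynomial Pool.Agent.W603.LV Pool.Agent.W619.PQ
open Pool.Agent.W619.TW Pool.Agent.W602.GT Pool.Agent.TH122.AB Pool.Agent.TH756.PN
open Pool.Agent.Y169.CH Pool.Agent.W602.Cov Pool.Agent.W602.Cov.G Pool.Agent.Y169.TH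
open Pool.Agent.Q57.TP Pool.Agent.TH152.AC Pool.Agent.Q57.GM

namespace Pool.Agent.Q57.FG

section lat

variable {N p : ℕ}

/-- the constraints for the exponents -/
def consM (T : Finset (Fin N → ℕ)) (e : Fin N → ℕ) (E L κ : ℤ) (q : Fin p → T → ℤ) :
    ((Fin p → ℤ) × (Fin N → ℤ)) →+ ((T ⊕ (Fin N ⊕ (Fin p ⊕ Fin 2))) → ℤ) :=
  AddMonoidHom.mk' (fun γ => Sum.elim
    (fun s => L * ∑ k, (e k : ℤ) * s.1 k * γ.2 k - ∑ i, q i s * γ.1 i)
    (Sum.elim (fun k => γ.2 k) (Sum.elim (fun i => γ.1 i) (fun i => if i = 0 then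
      E * ∑ k, γ.2 k - κ * ∑ i, γ.1 i else κ * ∑ i, γ.1 i - E * ∑ k, γ.2 k)))) (by
    intro x y
    funext s
    rcases s with s | k | i | i
    · simp only [Sum.elim_inl, Pi.add_apply, Prod.fst_add, Prod.snd_add, mul_add,
        Finset.sum_add_distrib]
      ring
    · simp only [Sum.elim_inl, Sum.elim_inr, Pi.add_apply, Prod.snd_add]
    · simp only [Sum.elim_inl, Sum.elim_inr, Pi.add_apply, Prod.fst_add]
    · simp only [Sum.elim_inr, Pi.add_apply, Prod.fst_add, Prod.snd_add, Finset.sum_add_distrib]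
      split_ifs <;> ring)

variable {T : Finset (Fin N → ℕ)} {e : Fin N → ℕ} {E L κ : ℤ} {q : Fin p → T → ℤ}

theorem consM_vec (γ : (Fin p → ℤ) × (Fin N → ℤ)) (s : T) : consM T e E L κ q γ (Sum.inl s) =
    L * ∑ k, (e k : ℤ) * s.1 k * γ.2 k - ∑ i, q i s * γ.1 i := rfl

theorem consM_coord (γ : (Fin p → ℤ) × (Fin N → ℤ)) (k : Fin N) :
    consM T e E L κ q γ (Sum.inr (Sum.inl k)) = γ.2 k := rfl

theorem consM_m (γ : (Fin p → ℤ) × (Fin N → ℤ)) (i : Fin p) :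
    consM T e E L κ q γ (Sum.inr (Sum.inr (Sum.inl i))) = γ.1 i := rfl

theorem consM_1 (γ : (Fin p → ℤ) × (Fin N → ℤ)) :
    consM T e E L κ q γ (Sum.inr (Sum.inr (Sum.inr 0))) = E * ∑ k, γ.2 k - κ * ∑ i, γ.1 i := rfl

theorem consM_2 (γ : (Fin p → ℤ) × (Fin N → ℤ)) :
    consM T e E L κ q γ (Sum.inr (Sum.inr (Sum.inr 1))) = κ * ∑ i, γ.1 i - E * ∑ k, γ.2 k := rfl

theorem consM_inj : Function.Injective (consM T e E L κ q) := by
  rw [injective_iff_map_eq_zero]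
  intro γ hγ
  refine Prod.ext ?_ ?_
  · funext i
    exact congrFun hγ (Sum.inr (Sum.inr (Sum.inl i)))
  · funext k
    exact congrFun hγ (Sum.inr (Sum.inl k))

/-- the lattice points with the exact constraints -/
def ExM (T : Finset (Fin N → ℕ)) (e : Fin N → ℕ) (E L κ : ℤ) (q : Fin p → T → ℤ)
    (γ : (Fin p → ℤ) × (Fin N → ℤ)) : Prop := ∀ s, 0 ≤ consM T e E L κ q γ s

theorem ExM.eq {γ : (Fin p → ℤ) × (Fin N → ℤ)} (h : ExM T e E L κ q γ) :
    E * ∑ k, γ.2 k = κ * ∑ i, γ.1 i := by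
  have h1 := h (Sum.inr (Sum.inr (Sum.inr 0)))
  have h2 := h (Sum.inr (Sum.inr (Sum.inr 1)))
  rw [consM_1] at h1
  rw [consM_2] at h2
  linarith

theorem ExM.nn {γ : (Fin p → ℤ) × (Fin N → ℤ)} (h : ExM T e E L κ q γ) (i : Fin p) :
    0 ≤ γ.1 i := h (Sum.inr (Sum.inr (Sum.inl i)))

end lat

variable {d p : ℕ} {Φ : Arr (d + 1)} {K : Type} [Field K] [Algebra ℂ K] {R : ℕ} (C : Cv Φ K R)
  {c : Fin p → (Fin (d + 2) → ℕ) → ℚ} {δ : Fin p → Place ℂ K → ℚ}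

/-- finitely many of the inequalities imply the others, simultaneously for all `c i` -/
structure BigM (M : Fin R → ℕ) (a : Fin R → Fin (d + 2) → ℕ)
    (c : Fin p → (Fin (d + 2) → ℕ) → ℚ) (T : Finset (Fin (d + 2) → ℕ)) : Prop where
  adm : ∀ s ∈ T, Pool.Agent.Y169.TH.Adm M a s
  unit : ∀ k, uv M k ∈ T
  gen : ∀ v, Pool.Agent.Y169.TH.Adm M a v → ∃ w : (Fin (d + 2) → ℕ) → ℚ, (∀ s, 0 ≤ w s) ∧
    (∀ k, ∑ s ∈ T, w s * s k ≤ v k) ∧ ∀ i, 1 - c i v ≤ ∑ s ∈ T, w s * (1 - c i s)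

/-- the lattice points with exact constraints satisfy all the inequalities -/
theorem exM_adm {M : Fin R → ℕ} {a : Fin R → Fin (d + 2) → ℕ} {T : Finset (Fin (d + 2) → ℕ)}
    (hT : BigM M a c T) {L : ℕ} (hL : 0 < L) {q : Fin p → T → ℤ}
    (hq : ∀ i (s : T), (L : ℚ) * (1 - c i s.1) = q i s) {κ : ℤ}
    {γ : (Fin p → ℤ) × (Fin (d + 2) → ℤ)} (h : ExM T Φ.ee Φ.E L κ q γ) {v : Fin (d + 2) → ℕ}
    (hv : Pool.Agent.Y169.TH.Adm M a v) :
    ∑ i, (γ.1 i : ℚ) * (1 - c i v) ≤ ((∑ k, (Φ.ee k : ℤ) * v k * γ.2 k : ℤ) : ℚ) := by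
  classical
  obtain ⟨w, hw, hwv, hwc⟩ := hT.gen v hv
  have hLq : (0 : ℚ) < L := by exact_mod_cast hL
  have hm : ∀ i, (0 : ℚ) ≤ γ.1 i := fun i => by exact_mod_cast h.nn i
  have h1 : ∀ s : T, ∑ i, (γ.1 i : ℚ) * (1 - c i s.1) ≤ ∑ k, (Φ.ee k : ℚ) * s.1 k * γ.2 k := by
    intro s
    have h2 := h (Sum.inl s)
    rw [consM_vec] at h2
    have h3 : ((∑ i, q i s * γ.1 i : ℤ) : ℚ) ≤
        ((L * ∑ k, (Φ.ee k : ℤ) * s.1 k * γ.2 k : ℤ) : ℚ) := by
      exact_mod_cast (by linarith : ∑ i, q i s * γ.1 i ≤ L * ∑ k, (Φ.ee k : ℤ) * s.1 k * γ.2 k)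
    push_cast at h3
    have h4 : (L : ℚ) * ∑ i, (γ.1 i : ℚ) * (1 - c i s.1) ≤
        L * ∑ k, (Φ.ee k : ℚ) * s.1 k * γ.2 k := by
      refine le_trans (le_of_eq ?_) h3
      rw [Finset.mul_sum]
      refine Finset.sum_congr rfl fun i _ => ?_
      rw [← hq i s]
      ring
    exact le_of_mul_le_mul_left h4 hLq
  have h2 : ∀ k, (0 : ℚ) ≤ Φ.ee k * γ.2 k := by
    intro k
    have h3 : 0 ≤ γ.2 k := h (Sum.inr (Sum.inl k))
    have h4 : (0 : ℚ) ≤ γ.2 k := by exact_mod_cast h3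
    positivity
  calc ∑ i, (γ.1 i : ℚ) * (1 - c i v) ≤ ∑ i, (γ.1 i : ℚ) * ∑ s ∈ T, w s * (1 - c i s) :=
        Finset.sum_le_sum fun i _ => mul_le_mul_of_nonneg_left (hwc i) (hm i)
    _ = ∑ s ∈ T, w s * ∑ i, (γ.1 i : ℚ) * (1 - c i s) := by
        simp only [Finset.mul_sum]
        rw [Finset.sum_comm]
        exact Finset.sum_congr rfl fun s _ => Finset.sum_congr rfl fun i _ => by ring
    _ ≤ ∑ s ∈ T, w s * ∑ k, (Φ.ee k : ℚ) * s k * γ.2 k :=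
        Finset.sum_le_sum fun s hs => mul_le_mul_of_nonneg_left (h1 ⟨s, hs⟩) (hw s)
    _ = ∑ k, (∑ s ∈ T, w s * s k) * (Φ.ee k * γ.2 k) := by
        simp only [Finset.mul_sum, Finset.sum_mul]
        rw [Finset.sum_comm]
        exact Finset.sum_congr rfl fun k _ => Finset.sum_congr rfl fun s _ => by ring
    _ ≤ ∑ k, (v k : ℚ) * (Φ.ee k * γ.2 k) :=
        Finset.sum_le_sum fun k _ => mul_le_mul_of_nonneg_right (hwv k) (h2 k)
    _ = _ := by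
        push_cast
        exact Finset.sum_congr rfl fun k _ => by ring

/-- the average of the boundaries -/
noncomputable def av {α : Type} (μ : Fin p →₀ ℕ) (c : Fin p → α → ℚ) (v : α) : ℚ :=
  (∑ i, (μ i : ℚ) * c i v) / (∑ i, μ i : ℕ)

theorem av_mul {α : Type} (μ : Fin p →₀ ℕ) (c : Fin p → α → ℚ) (v : α) :
    ((∑ i, μ i : ℕ) : ℚ) * av μ c v = ∑ i, (μ i : ℚ) * c i v := by
  unfold av
  by_cases h0 : ((∑ i, μ i : ℕ) : ℚ) = 0
  · rw [h0, zero_mul]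
    have h1 : ∑ i, μ i = 0 := by exact_mod_cast h0
    have h2 : ∀ i, μ i = 0 := fun i => Finset.sum_eq_zero_iff.1 h1 i (Finset.mem_univ i)
    symm
    exact Finset.sum_eq_zero fun i _ => by rw [h2]; simp
  · rw [mul_div_cancel₀ _ h0]

theorem av_le {α : Type} (μ : Fin p →₀ ℕ) {c : Fin p → α → ℚ} (v : α) (h : ∀ i, c i v ≤ 1) :
    av μ c v ≤ 1 := by
  unfold av
  rcases Nat.eq_zero_or_pos (∑ i, μ i) with h0 | h0
  · rw [h0]
    simp
  · have h1 : (0 : ℚ) < (∑ i, μ i : ℕ) := by exact_mod_cast h0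
    rw [div_le_one h1]
    push_cast
    exact Finset.sum_le_sum fun i _ => by
      have h2 : (0 : ℚ) ≤ μ i := by positivity
      nlinarith [h i]

theorem av_coef (μ : Fin p →₀ ℕ) (h : ∀ i, Coef C (c i) (δ i)) : Coef C (av μ c) (av μ δ) := by
  refine ⟨?_, fun v => av_le μ v fun i => (h i).le v, fun P α v hd => ?_⟩
  · unfold av
    rw [Finset.sum_eq_zero fun i _ => by rw [(h i).h0, mul_zero], zero_div]
  · unfold av
    congr 1
    exact Finset.sum_congr rfl fun i _ => by rw [(h i).hδ P α v hd]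

theorem av_ray (μ : Fin p →₀ ℕ) {α : Type} {c : Fin p → α → ℚ} {v v' : α} {r : ℕ} (hr : 1 ≤ r)
    (h : ∀ i, 1 - c i v' ≤ r * (1 - c i v)) : 1 - av μ c v' ≤ r * (1 - av μ c v) := by
  rcases Nat.eq_zero_or_pos (∑ i, μ i) with h0 | h0
  · unfold av
    rw [h0]
    simp only [Nat.cast_zero, div_zero, sub_zero, mul_one]
    exact_mod_cast hr
  · have h1 : (0 : ℚ) < (∑ i, μ i : ℕ) := by exact_mod_cast h0
    have h2 : ((∑ i, μ i : ℕ) : ℚ) * (1 - av μ c v') ≤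
        ((∑ i, μ i : ℕ) : ℚ) * (r * (1 - av μ c v)) := by
      have h3 := av_mul μ c v
      have h4 := av_mul μ c v'
      have h5 : ∑ i, (μ i : ℚ) * (1 - c i v') ≤ ∑ i, (μ i : ℚ) * (r * (1 - c i v)) :=
        Finset.sum_le_sum fun i _ => mul_le_mul_of_nonneg_left (h i) (by positivity)
      have h6 : ∑ i, (μ i : ℚ) * (1 - c i v') = ((∑ i, μ i : ℕ) : ℚ) -
          ∑ i, (μ i : ℚ) * c i v' := by
        push_cast
        rw [← Finset.sum_sub_distrib]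
        exact Finset.sum_congr rfl fun i _ => by ring
      have h7 : ∑ i, (μ i : ℚ) * (r * (1 - c i v)) = r * (((∑ i, μ i : ℕ) : ℚ) -
          ∑ i, (μ i : ℚ) * c i v) := by
        push_cast
        rw [← Finset.sum_sub_distrib, Finset.mul_sum]
        exact Finset.sum_congr rfl fun i _ => by ring
      rw [h6, h7, ← h3, ← h4] at h5
      linarith
    exact le_of_mul_le_mul_left h2 h1

/-- the sections, for the average -/
theorem msec_bsec {N : ℕ} {δ : Fin p → Place ℂ K → ℚ} {μ : Fin p →₀ ℕ}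
    {ω : (Fin N → Derivation ℂ K K) → K} (h : MSec N δ μ ω) :
    BSec N (av μ δ) {1} (∑ i, μ i) 0 ω := by
  refine ⟨h.1, fun P hP D hD => (h.2 P hP D hD).imp id fun hle =>
    ⟨1, by simp, one_ne_zero, ?_⟩⟩
  rw [av_mul]
  push_cast
  linarith

theorem bsec_msec {N : ℕ} {δ : Fin p → Place ℂ K → ℚ} {μ : Fin p →₀ ℕ}
    {ω : (Fin N → Derivation ℂ K K) → K} (h : BSec N (av μ δ) {1} (∑ i, μ i) 1 ω) :
    MSec N δ μ ω := by
  refine ⟨h.1, fun P hP D hD => (h.2 P hP D hD).imp id ?_⟩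
  rintro ⟨s, hs, -, hle⟩
  rw [Finset.mem_singleton] at hs
  subst hs
  rw [P.ord_one, av_mul] at hle
  push_cast at hle
  linarith

/-- the product of the sections of lattice points -/
theorem sG_mul (m m' : ℕ) (a a' : Fin (d + 2) → ℤ) (D : Fin (d + 1) → Derivation ℂ K K) :
    sG C (m + m') (fun k => a k + a' k) D = sG C m a D * sG C m' a' D := by
  unfold sG
  rw [pow_add]
  have h1 : ∏ k, aeval C.x (Φ.F k) ^ ((Φ.ee k : ℤ) * (a k + a' k) - ((m + m' : ℕ) : ℤ)) =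
      (∏ k, aeval C.x (Φ.F k) ^ ((Φ.ee k : ℤ) * a k - m)) *
      ∏ k, aeval C.x (Φ.F k) ^ ((Φ.ee k : ℤ) * a' k - m') := by
    rw [← Finset.prod_mul_distrib]
    refine Finset.prod_congr rfl fun k _ => ?_
    rw [← zpow_add₀ (C.F_ne k)]
    congr 1
    push_cast
    ring
  rw [h1]
  ring

/-- the monomials in the new coordinates -/
theorem mono_sG (m q : ℕ) (a : Fin (d + 1) →₀ ℕ) (D : Fin (d + 1) → Derivation ℂ K K) :
    sG C m (Fin.cases ((q : ℤ) - ∑ b, (a b : ℤ)) fun b => (a b : ℤ)) D =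
      bw D C.x ^ m * (∏ b, C.Y b ^ a b) * aeval C.x (Φ.G 0) ^ q / C.Lam m := by
  have hF : ∀ k, aeval C.x (Φ.F k) ≠ 0 := C.F_ne
  have h1 : ∏ k : Fin (d + 2), aeval C.x (Φ.F k) ^ ((Φ.ee k : ℤ) *
      (Fin.cases ((q : ℤ) - ∑ b, (a b : ℤ)) (fun b => (a b : ℤ)) k : ℤ) - m) =
      (∏ k : Fin (d + 2), aeval C.x (Φ.G k) ^
        (Fin.cases ((q : ℤ) - ∑ b, (a b : ℤ)) (fun b => (a b : ℤ)) k : ℤ)) / C.Lam m := by
    unfold Cv.Lam
    rw [← Finset.prod_div_distrib]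
    refine Finset.prod_congr rfl fun k _ => ?_
    rw [Cv.ae_G, zpow_sub₀ (hF k), zpow_mul, zpow_natCast, zpow_natCast]
  have h2 : ∏ k : Fin (d + 2), aeval C.x (Φ.G k) ^
        (Fin.cases ((q : ℤ) - ∑ b, (a b : ℤ)) (fun b => (a b : ℤ)) k : ℤ) =
      (∏ b, C.Y b ^ a b) * aeval C.x (Φ.G 0) ^ q := by
    rw [Fin.prod_univ_succ]
    simp only [Fin.cases_zero, Fin.cases_succ]
    have h3 : ∏ b, C.Y b ^ a b = (∏ b : Fin (d + 1), aeval C.x (Φ.G b.succ) ^ (a b : ℤ)) /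
        aeval C.x (Φ.G 0) ^ (∑ b, (a b : ℤ)) := by
      have h4 : aeval C.x (Φ.G 0) ^ (∑ b, (a b : ℤ)) =
          ∏ b : Fin (d + 1), aeval C.x (Φ.G 0) ^ (a b : ℤ) := by
        have h5 : ∑ b, (a b : ℤ) = ((∑ b, a b : ℕ) : ℤ) := by push_cast; rfl
        rw [h5, zpow_natCast]
        simp only [zpow_natCast]
        rw [Finset.prod_pow_eq_pow_sum]
      rw [h4, ← Finset.prod_div_distrib]
      refine Finset.prod_congr rfl fun b _ => ?_
      unfold Cv.Y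
      rw [zpow_natCast, zpow_natCast, div_pow]
    rw [h3, zpow_sub₀ (C.G_ne 0), zpow_natCast]
    have h6 := zpow_ne_zero (∑ b, (a b : ℤ)) (C.G_ne 0)
    field_simp
  unfold sG
  rw [h1, h2]
  ring

end Pool.Agent.Q57.FG
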