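import Pool.Agent.Q57.TP.Kod

/-!
The multigraded ring of the sections of the sums of multiples of the `K + Δ i`, and a criterion for
its finite generation.
-/

set_option autoImplicit false
set_option linter.overlappingInstances false
set_option linter.unusedSectionVars false

open FF MvPolynomial Pool.Agent.W602.GT Pool.Agent.W602.Cov Pool.Agent.TH122.AB
open Pool.Agent.TH756.PN Pool.Agent.W603.LV Pool.Agent.Q57.TP

namespace Pool.Agent.Q57.FG

/-- a subalgebra between a finitely generated algebra and a finitely generated module over it -/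
theorem fg_of_span {k W : Type} [Field k] [CommRing W] [Algebra k W] (G F : Finset W)
    (R : Subalgebra k W) (hG : ∀ g ∈ G, g ∈ R)
    (hR : ∀ p ∈ R, p ∈ Submodule.span (Algebra.adjoin k (G : Set W)) (F : Set W)) : R.FG := by
  classical
  obtain ⟨S, hS⟩ : ∃ S, S = Algebra.adjoin k (G : Set W) := ⟨_, rfl⟩
  rw [← hS] at hR
  have hSR : S ≤ R := by
    rw [hS]
    exact Algebra.adjoin_le hG
  have hft : Algebra.FiniteType k S := by
    rw [hS]
    exact (Subalgebra.fg_iff_finiteType _).1 (Subalgebra.fg_adjoin_finset G)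
  have hno : IsNoetherianRing S := Algebra.FiniteType.isNoetherianRing k S
  let R' : Submodule S W :=
    { carrier := R
      add_mem' := fun ha hb => R.add_mem ha hb
      zero_mem' := R.zero_mem
      smul_mem' := fun c x hx => R.mul_mem (hSR c.2) hx }
  have hle : R' ≤ Submodule.span S (F : Set W) := fun p hp => hR p hp
  have hN : IsNoetherian S (Submodule.span S (F : Set W)) :=
    isNoetherian_span_of_finite S F.finite_toSet
  obtain ⟨F', hF'⟩ := isNoetherian_submodule.1 hN R' hle
  refine ⟨G ∪ F', le_antisymm ?_ ?_⟩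
  · refine Algebra.adjoin_le ?_
    intro x hx
    rw [Finset.coe_union] at hx
    rcases hx with hx | hx
    · exact hG x hx
    · have : x ∈ R' := by
        rw [← hF']
        exact Submodule.subset_span hx
      exact this
  · intro p hp
    have h1 : p ∈ Submodule.span S (F' : Set W) := by
      rw [hF']
      exact hp
    have hSA : S ≤ Algebra.adjoin k ((G ∪ F' : Finset W) : Set W) := by
      rw [hS]
      refine Algebra.adjoin_mono ?_
      rw [Finset.coe_union]
      exact Set.subset_union_left
    induction h1 using Submodule.span_induction with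
    | mem x hx =>
      refine Algebra.subset_adjoin ?_
      rw [Finset.coe_union]
      exact Or.inr hx
    | zero => exact Subalgebra.zero_mem _
    | add x y hx' hy' hx hy =>
      have h2 : ∀ z ∈ Submodule.span S (F' : Set W), z ∈ R := by
        intro z hz
        rw [hF'] at hz
        exact hz
      exact Subalgebra.add_mem _ (hx (h2 x hx')) (hy (h2 y hy'))
    | smul a x hx' hx =>
      have h2 : ∀ z ∈ Submodule.span S (F' : Set W), z ∈ R := by
        intro z hz
        rw [hF'] at hz
        exact hz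
      exact Subalgebra.mul_mem _ (hSA a.2) (hx (h2 x hx'))

variable {N p : ℕ} {K : Type} [Field K] [Algebra ℂ K]

/-- a section of `∑ i, μ i (K + Δ i)` -/
def MSec (N : ℕ) (δ : Fin p → Place ℂ K → ℚ) (μ : Fin p →₀ ℕ)
    (ω : (Fin N → Derivation ℂ K K) → K) : Prop :=
  IsPluri (∑ i, μ i) ω ∧ ∀ P : Place ℂ K, Divisorial N P →
    ∀ D : Fin N → Derivation ℂ K K, (∀ c, DerReg P (D c)) → ω D = 0 ∨
      - ∑ i, (μ i : ℚ) * δ i P ≤ P.ord (ω D)

theorem msec_add {δ : Fin p → Place ℂ K → ℚ} {μ : Fin p →₀ ℕ}
    {ω ω' : (Fin N → Derivation ℂ K K) → K} (h : MSec N δ μ ω) (h' : MSec N δ μ ω') :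
    MSec N δ μ fun D => ω D + ω' D := by
  refine ⟨fun A D => ?_, fun P hP D hD => ?_⟩
  · have h1 := h.1 A D
    have h2 := h'.1 A D
    dsimp only
    rw [h1, h2]
    ring
  · dsimp only
    by_cases h0 : ω D + ω' D = 0
    · exact Or.inl h0
    right
    rcases h.2 P hP D hD with h1 | h1
    · rw [h1, zero_add] at h0 ⊢
      exact (h'.2 P hP D hD).resolve_left h0
    rcases h'.2 P hP D hD with h2 | h2
    · rw [h2, add_zero]
      exact h1
    have h3 : Ge P ⌈- ∑ i, (μ i : ℚ) * δ i P⌉ (ω D + ω' D) :=
      Ge.add (Or.inr (Int.ceil_le.2 h1)) (Or.inr (Int.ceil_le.2 h2))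
    have h4 := h3.resolve_left h0
    exact Int.ceil_le.1 h4

theorem msec_mul {δ : Fin p → Place ℂ K → ℚ} {μ μ' : Fin p →₀ ℕ}
    {ω ω' : (Fin N → Derivation ℂ K K) → K} (h : MSec N δ μ ω) (h' : MSec N δ μ' ω') :
    MSec N δ (μ + μ') fun D => ω D * ω' D := by
  refine ⟨fun A D => ?_, fun P hP D hD => ?_⟩
  · have h1 := h.1 A D
    have h2 := h'.1 A D
    have h3 : ∑ i, (μ + μ') i = ∑ i, μ i + ∑ i, μ' i := by
      rw [← Finset.sum_add_distrib]
      rfl
    dsimp only
    rw [h1, h2, h3, pow_add]
    ring
  · dsimp only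
    rcases h.2 P hP D hD with h1 | h1
    · left
      rw [h1, zero_mul]
    rcases h'.2 P hP D hD with h2 | h2
    · left
      rw [h2, mul_zero]
    by_cases h0 : ω D = 0
    · left
      rw [h0, zero_mul]
    by_cases h0' : ω' D = 0
    · left
      rw [h0', mul_zero]
    right
    rw [P.ord_mul h0 h0']
    have h3 : ∑ i, (((μ + μ') i : ℕ) : ℚ) * δ i P =
        ∑ i, (μ i : ℚ) * δ i P + ∑ i, (μ' i : ℚ) * δ i P := by
      rw [← Finset.sum_add_distrib]
      refine Finset.sum_congr rfl fun i _ => ?_
      rw [Finsupp.add_apply]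
      push_cast
      ring
    rw [h3]
    push_cast
    linarith

theorem msec_zero (δ : Fin p → Place ℂ K → ℚ) (μ : Fin p →₀ ℕ) :
    MSec N δ μ fun _ : Fin N → Derivation ℂ K K => (0 : K) :=
  ⟨fun A D => by simp, fun P hP D hD => Or.inl rfl⟩

theorem msec_const (δ : Fin p → Place ℂ K → ℚ) (c : ℂ) :
    MSec N δ 0 fun _ : Fin N → Derivation ℂ K K => algebraMap ℂ K c := by
  refine ⟨fun A D => by simp, fun P hP D hD => ?_⟩
  by_cases hc : c = 0
  · left
    rw [hc, map_zero]
  · right
    rw [P.ord_const hc]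
    simp

/-- the multigraded ring of the sections -/
def secRing (N : ℕ) (δ : Fin p → Place ℂ K → ℚ) :
    Subalgebra ℂ ((Fin N → Derivation ℂ K K) → MvPolynomial (Fin p) K) where
  carrier := {f | ∀ μ, MSec N δ μ fun D => coeff μ (f D)}
  mul_mem' := by
    intro f g hf hg μ
    have h1 : ∀ s : Finset ((Fin p →₀ ℕ) × (Fin p →₀ ℕ)), (∀ x ∈ s, x.1 + x.2 = μ) →
        MSec N δ μ fun D => ∑ x ∈ s, coeff x.1 (f D) * coeff x.2 (g D) := by
      classical
      intro s
      induction s using Finset.induction_on with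
      | empty =>
        intro _
        simp only [Finset.sum_empty]
        exact msec_zero δ μ
      | insert x s hx ih =>
        intro hs
        simp only [Finset.sum_insert hx]
        refine msec_add ?_ (ih fun y hy => hs y (Finset.mem_insert_of_mem hy))
        have h2 := msec_mul (hf x.1) (hg x.2)
        rw [hs x (Finset.mem_insert_self x s)] at h2
        exact h2
    have h2 := h1 (Finset.HasAntidiagonal.antidiagonal μ) fun x hx =>
      Finset.HasAntidiagonal.mem_antidiagonal.1 hx
    simpa only [Pi.mul_apply, MvPolynomial.coeff_mul] using h2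
  add_mem' := by
    intro f g hf hg μ
    have h2 := msec_add (hf μ) (hg μ)
    simpa only [Pi.add_apply, MvPolynomial.coeff_add] using h2
  algebraMap_mem' := by
    intro c μ
    have h1 : (fun D : Fin N → Derivation ℂ K K => coeff μ ((algebraMap ℂ
        ((Fin N → Derivation ℂ K K) → MvPolynomial (Fin p) K) c) D)) =
        fun _ => if 0 = μ then algebraMap ℂ K c else 0 := by
      funext D
      change coeff μ (algebraMap ℂ (MvPolynomial (Fin p) K) c) = _
      rw [MvPolynomial.algebraMap_apply, MvPolynomial.coeff_C]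
    rw [h1]
    by_cases hm : 0 = μ
    · subst hm
      simpa using msec_const (N := N) δ c
    · simp only [if_neg hm]
      exact msec_zero δ μ

/-- the homogeneous element given by a section -/
noncomputable def hom (μ : Fin p →₀ ℕ) (ω : (Fin N → Derivation ℂ K K) → K) :
    (Fin N → Derivation ℂ K K) → MvPolynomial (Fin p) K := fun D => monomial μ (ω D)

theorem hom_mem {δ : Fin p → Place ℂ K → ℚ} {μ : Fin p →₀ ℕ}
    {ω : (Fin N → Derivation ℂ K K) → K} (h : MSec N δ μ ω) : hom μ ω ∈ secRing N δ := by
  classical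
  intro μ'
  unfold hom
  by_cases hm : μ = μ'
  · subst hm
    simpa only [MvPolynomial.coeff_monomial, if_true] using h
  · simp only [MvPolynomial.coeff_monomial, if_neg hm]
    exact msec_zero δ μ'

/-- the finite generation, in terms of the homogeneous elements -/
theorem secRing_fg {δ : Fin p → Place ℂ K → ℚ} {D0 : Fin N → Derivation ℂ K K}
    (hD0 : ∀ (m : ℕ) (ω : (Fin N → Derivation ℂ K K) → K), IsPluri m ω → ω D0 = 0 → ω = 0)
    (G F : Finset ((Fin N → Derivation ℂ K K) → MvPolynomial (Fin p) K))
    (hG : ∀ g ∈ G, g ∈ secRing N δ)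
    (hF : ∀ (μ : Fin p →₀ ℕ) (ω : (Fin N → Derivation ℂ K K) → K), MSec N δ μ ω →
      hom μ ω ∈ Submodule.span
        (Algebra.adjoin ℂ (G : Set ((Fin N → Derivation ℂ K K) → MvPolynomial (Fin p) K)))
        (F : Set ((Fin N → Derivation ℂ K K) → MvPolynomial (Fin p) K))) :
    (secRing N δ).FG := by
  classical
  refine fg_of_span G F _ hG fun f hf => ?_
  have h1 : f = ∑ μ ∈ (f D0).support, hom μ fun D => coeff μ (f D) := by
    funext D
    rw [Finset.sum_apply]
    unfold hom
    have h2 : ∀ μ, μ ∉ (f D0).support → coeff μ (f D) = 0 := by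
      intro μ hμ
      rw [notMem_support_iff] at hμ
      exact congrFun (hD0 _ _ (hf μ).1 hμ) D
    conv_lhs => rw [(f D).as_sum]
    refine Finset.sum_subset ?_ fun μ _ hμ => ?_
    · intro μ hμ
      by_contra hcon
      rw [mem_support_iff] at hμ
      exact hμ (h2 μ hcon)
    · rw [notMem_support_iff.1 hμ, monomial_zero]
  rw [h1]
  exact Submodule.sum_mem _ fun μ _ => hF μ _ (hf μ)

end Pool.Agent.Q57.FG
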