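import Pool.Agent.Q57.FG.FgA

/-!
The finite generation of the multigraded adjoint rings, for covers of the projective space: the main
theorem.
-/

set_option autoImplicit false
set_option linter.overlappingInstances false
set_option linter.unusedSectionVars false
set_option maxHeartbeats 1000000

open FF MvPolynomial Pool.Agent.W603.LV Pool.Agent.W619.PQ
open Pool.Agent.W619.TW Pool.Agent.W602.GT Pool.Agent.TH122.AB Pool.Agent.TH756.PN
open Pool.Agent.Y169.CH Pool.Agent.W602.Cov Pool.Agent.W602.Cov.G Pool.Agent.Y169.TH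
open Pool.Agent.Q57.TP Pool.Agent.TH152.AC Pool.Agent.Q57.GM

namespace Pool.Agent.Q57.FG

theorem exists_bigM {d p R : ℕ} {M : Fin R → ℕ} {a : Fin R → Fin (d + 2) → ℕ}
    {c : Fin p → (Fin (d + 2) → ℕ) → ℚ} (hM : ∀ j, 0 < M j)
    (h : ∃ T : Finset (Fin (d + 2) → ℕ), (∀ s ∈ T, Pool.Agent.Y169.TH.Adm M a s) ∧
      ∀ v, Pool.Agent.Y169.TH.Adm M a v →
      ∃ w : (Fin (d + 2) → ℕ) → ℚ, (∀ s, 0 ≤ w s) ∧ (∀ k, ∑ s ∈ T, w s * s k ≤ v k) ∧
        ∀ i, 1 - c i v ≤ ∑ s ∈ T, w s * (1 - c i s)) : ∃ T, BigM M a c T := by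
  classical
  obtain ⟨T, hT, hg⟩ := h
  refine ⟨T ∪ Finset.univ.image (uv M), ?_, fun k => ?_, fun v hv => ?_⟩
  · intro s hs
    rcases Finset.mem_union.1 hs with h1 | h1
    · exact hT s h1
    · obtain ⟨k, -, rfl⟩ := Finset.mem_image.1 h1
      exact adm_unit hM (by omega) k
  · exact Finset.mem_union_right _ (Finset.mem_image_of_mem _ (Finset.mem_univ k))
  · obtain ⟨w, hw, h1, h2⟩ := hg v hv
    have key : ∀ f : (Fin (d + 2) → ℕ) → ℚ, ∑ s ∈ T ∪ Finset.univ.image (uv M),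
        (if s ∈ T then w s else 0) * f s = ∑ s ∈ T, w s * f s := by
      intro f
      rw [← Finset.sum_subset (Finset.subset_union_left (s₁ := T)
        (s₂ := Finset.univ.image (uv M)))]
      · exact Finset.sum_congr rfl fun s hs => by rw [if_pos hs]
      · intro s _ hs
        rw [if_neg hs, zero_mul]
    refine ⟨fun s => if s ∈ T then w s else 0, fun s => ?_, fun k => ?_, fun i => ?_⟩
    · dsimp only
      split_ifs
      · exact hw s
      · exact le_rfl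
    · rw [key fun s => (s k : ℚ)]
      exact h1 k
    · rw [key fun s => 1 - c i s]
      exact h2 i

/-- **The main theorem.** -/
theorem main_fg {d R p : ℕ} {K : Type} [Field K] [Algebra ℂ K] {x : Fin (d + 2) → K}
    (hx0 : x 0 ≠ 0)
    (hbas : IsTranscendenceBasis ℂ fun b : Fin (d + 1) => x b.succ / x 0)
    {F : Fin (d + 2) → MvPolynomial (Fin (d + 2)) ℂ} {dF : Fin (d + 2) → ℕ} (hd : ∀ k, 0 < dF k)
    (hh : ∀ k, (F k).IsHomogeneous (dF k)) (hS : Snc F) {z : Fin R → K} {M : Fin R → ℕ}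
    (hM : ∀ j, 0 < M j) {a : Fin R → Fin (d + 2) → ℕ}
    (hz : ∀ j, z j ^ M j = ∏ k, (aeval x (F k) / x 0 ^ dF k) ^ a j k)
    (hdiv : ∀ j, M j ∣ ∑ k, a j k * dF k)
    (hgen : IntermediateField.adjoin ℂ
      (Set.range (fun b : Fin (d + 1) => x b.succ / x 0) ∪ Set.range z) = ⊤)
    {c : Fin p → (Fin (d + 2) → ℕ) → ℚ} (hc0 : ∀ i, c i 0 = 0) (hc1 : ∀ i v, c i v ≤ 1)
    (hmul : ∀ i v (r : ℕ), 1 ≤ r → Pool.Agent.Y169.TH.Adm M a v →
      1 - c i (r • v) ≤ r * (1 - c i v))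
    (hfg : ∃ T : Finset (Fin (d + 2) → ℕ), (∀ s ∈ T, Pool.Agent.Y169.TH.Adm M a s) ∧
      ∀ v, Pool.Agent.Y169.TH.Adm M a v →
      ∃ w : (Fin (d + 2) → ℕ) → ℚ, (∀ s, 0 ≤ w s) ∧ (∀ k, ∑ s ∈ T, w s * s k ≤ v k) ∧
        ∀ i, 1 - c i v ≤ ∑ s ∈ T, w s * (1 - c i s)) {δ : Fin p → Place ℂ K → ℚ}
    (hδ : ∀ i P, δ i P = c i (mul F dF x P)) :
    (secRing (d + 1) δ).FG := by
  classical
  obtain ⟨T, hT⟩ := exists_bigM hM hfg
  obtain ⟨Φ, rfl, C, rfl, rfl, hvv⟩ := exists_cv_d hx0 hbas hd hh hS hM hz hdiv hgen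
  have hcf : ∀ i, Coef C (c i) (δ i) := fun i =>
    ⟨hc0 i, hc1 i, fun P α v h => by rw [hδ, hvv P α v h]⟩
  refine fgA C hcf hmul hT fun μ ω hω hω0 => ?_
  rcases Nat.eq_zero_or_pos (∑ i, μ i) with h0 | h0
  · rw [h0]
    simp
  have hmain := (main_d hx0 hbas hd hh hS hM hz hdiv hgen (av_coef C μ hcf).h0
    (av_coef C μ hcf).le (fun v r hr hv => av_ray μ hr fun i => hmul i v r hr hv)
    (δ := av μ δ) ?_ (fun P => ?_)).2.1
  rotate_left
  · refine ⟨T, hT.adm, fun v hv => ?_⟩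
    obtain ⟨w, hw, hwv, hwc⟩ := hT.gen v hv
    refine ⟨w, hw, hwv, ?_⟩
    have h1 : (0 : ℚ) < (∑ i, μ i : ℕ) := by exact_mod_cast h0
    have h2 : ((∑ i, μ i : ℕ) : ℚ) * (1 - av μ c v) ≤
        ((∑ i, μ i : ℕ) : ℚ) * ∑ s ∈ T, w s * (1 - av μ c s) := by
      have h3 : ∀ v, ((∑ i, μ i : ℕ) : ℚ) * (1 - av μ c v) = ∑ i, (μ i : ℚ) * (1 - c i v) := by
        intro v
        rw [mul_sub, av_mul]
        push_cast
        rw [mul_one, ← Finset.sum_sub_distrib]
        exact Finset.sum_congr rfl fun i _ => by ring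
      have h4 : ((∑ i, μ i : ℕ) : ℚ) * ∑ s ∈ T, w s * (1 - av μ c s) =
          ∑ i, (μ i : ℚ) * ∑ s ∈ T, w s * (1 - c i s) := by
        rw [Finset.mul_sum]
        have h5 : ∀ s ∈ T, ((∑ i, μ i : ℕ) : ℚ) * (w s * (1 - av μ c s)) =
            ∑ i, (μ i : ℚ) * (w s * (1 - c i s)) := by
          intro s _
          have h6 : ((∑ i, μ i : ℕ) : ℚ) * (w s * (1 - av μ c s)) =
              w s * (((∑ i, μ i : ℕ) : ℚ) * (1 - av μ c s)) := by ring
          rw [h6, h3, Finset.mul_sum]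
          exact Finset.sum_congr rfl fun i _ => by ring
        rw [Finset.sum_congr rfl h5, Finset.sum_comm]
        exact Finset.sum_congr rfl fun i _ => by rw [Finset.mul_sum]
      rw [h3, h4]
      exact Finset.sum_le_sum fun i _ => mul_le_mul_of_nonneg_left (hwc i) (by positivity)
    exact le_of_mul_le_mul_left h2 h1
  · unfold av
    congr 1
    exact Finset.sum_congr rfl fun i _ => by rw [hδ]
  obtain ⟨D, hD⟩ : ∃ D, ω D ≠ 0 := by
    by_contra hcon
    push Not at hcon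
    exact hω0 (funext hcon)
  have hk : BKod (d + 1) (av μ δ) 0 := by
    refine ⟨∑ i, μ i, h0, fun _ => ω, fun _ => ?_, D, hD, ?_⟩
    · have h1 := msec_bsec hω
      refine ⟨h1.1, fun P hP D hD => (h1.2 P hP D hD).imp id ?_⟩
      rintro ⟨s, hs, hs0, hle⟩
      rw [Finset.mem_singleton] at hs
      subst hs
      refine ⟨1, by simp, one_ne_zero, ?_⟩
      rw [P.ord_one] at hle ⊢
      simpa using hle
    · exact algebraicIndependent_empty_type_iff.2 (algebraMap ℂ K).injective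
  obtain ⟨y, hy1, hy2⟩ := hmain.1 hk
  have hy0 : ∀ k, 0 ≤ y k := by
    intro k
    have h1 := hy2 _ (hT.adm _ (hT.unit k))
    have h2 : ∑ i, (uv C.M k i : ℚ) * y i = per C.M * y k := by
      rw [Finset.sum_eq_single k]
      · unfold uv
        rw [if_pos rfl]
      · intro l _ hl
        unfold uv
        rw [if_neg hl]
        simp
      · intro h
        exact absurd (Finset.mem_univ _) h
    rw [h2] at h1
    have h3 := (av_coef C μ hcf).le (uv C.M k)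
    have h4 : (0 : ℚ) < per C.M := by exact_mod_cast per_pos C.hM
    by_contra hcon
    push Not at hcon
    have h5 : (per C.M : ℚ) * y k < 0 := mul_neg_of_pos_of_neg h4 hcon
    linarith
  have h1 : 0 ≤ ∑ k, (Φ.dF k : ℚ) * y k :=
    Finset.sum_nonneg fun k _ => mul_nonneg (by positivity) (hy0 k)
  rw [hy1] at h1
  have h2 : (0 : ℚ) ≤ ((∑ k, (Φ.dF k : ℤ) - (d + 2) : ℤ) : ℚ) := by
    push_cast at h1 ⊢
    linarith
  have h3 : 0 ≤ ∑ k, (Φ.dF k : ℤ) - (d + 2) := by exact_mod_cast h2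
  positivity

end Pool.Agent.Q57.FG
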